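import Mathlib
import Pool.Agent.Q58.WCS.Unique
import Pool.Agent.Q58.WCS.Conv

/-!
# MP_52d8fd_co, Q1: all weakly consecutive sequences

`IsWCS k σ` : the entries `σ 1, ..., σ k` form a weakly consecutive permutation of `[k]`
(`Pool.Agent.Results.MP_a4c3d5_co.SmallTerms`).  `Start`, `Start.Available`, `Start.seq`, `Rule`,
`Rule.pair`, `Rule.act`, `Rule.Allowed`, `Derives` and `Reduced` are defined in
`Pool.Agent.Q58.WCS.Derive`; they are the starting sequences and rules of the problem, together with
a fifth starting sequence `twiceTwinInversion`, available for `k = 2 p` with `p`, `p + 2` and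
`2 p + 1` prime: the sequence `(2, 3, ..., k, 1)` with the entries `2, 2 p` exchanged and the entries
`p, p + 2` exchanged.

* every sequence with a derivation is weakly consecutive, and every weakly consecutive sequence has
  a (reduced) derivation;
* for `k ≥ 12` two reduced derivations of the same sequence have the same starting sequence, the
  same set of swaps and the same use of the reversal;
* the fifth starting sequence cannot be omitted for any `k ≥ 12` for which it is available; the
  smallest such length is `k = 22`.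

The proof of the second claim of the first item is by induction from `k / 2` to `k`: the even
entries, divided by two, form a weakly consecutive sequence of length `k / 2`.
-/

set_option autoImplicit false

namespace Pool.Agent.Results.MP_52d8fd_co.Classification

open Pool.Agent.Results.MP_a4c3d5_co.SmallTerms Pool.Agent.Q58.WCS

lemma ne2 {k : ℕ} (hk : 12 ≤ k) {s : Start} {e : ℕ × ℕ} (h : LP k s e) : 2 ≠ e.1 ∧ 2 ≠ e.2 := by
  rcases h with h | ⟨-, -, q, h1, h2, h3, h4, rfl⟩
  · obtain ⟨p, c, hp, hc, h1, h2, rfl⟩ := h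
    constructor
    · intro h4
      simp only at h4
      have h5 : p ^ c = p * 2 := by
        rw [h4, ← pow_succ']
        congr 1
        omega
      have h6 : 1 < c := by
        by_contra hcon
        have : c = 1 := by omega
        subst this
        simp at h4
      have h7 : p ∣ 2 := by
        rw [h4]
        exact dvd_pow_self p (by omega)
      have h8 := Nat.le_of_dvd (by norm_num) h7
      omega
    · intro h4
      simp only at h4
      have h5 : p ^ (c - 1) ≤ p ^ c := Nat.pow_le_pow_right hp.pos (by omega)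
      omega
  · simp only
    omega

/-- The fifth starting sequence cannot be derived from the others. -/
theorem fifth_needed {p : ℕ} (hp : p.Prime) (hp2 : (p + 2).Prime) (hp1 : (2 * p + 1).Prime)
    (hk : 12 ≤ 2 * p) : ¬ ∃ s l f, s ≠ Start.twiceTwinInversion ∧ Derives (2 * p) s l f ∧
      ∀ i, 1 ≤ i → i ≤ 2 * p → f i = Start.seq (2 * p) .twiceTwinInversion i := by
  rintro ⟨s', l', f', hs', h', heq⟩
  obtain ⟨k, hkd⟩ : ∃ k, k = 2 * p := ⟨_, rfl⟩
  rw [← hkd] at h' heq hk
  have hdiv : k / 2 = p := by omega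
  have hav : Start.Available k .twiceTwinInversion := ⟨p, hp, hp2, hp1, hkd⟩
  obtain ⟨hL', hf'⟩ := inv hk h'
  have hG : ∀ e ∈ Start.ex k .twiceTwinInversion, GP k e := by
    intro e he
    rcases ex_tp hk hav e he with h | h
    · exact Or.inr (Or.inl h.1)
    · exact Or.inr (Or.inr h)
  have hG' := full_gp hk h'.available hL'
  have ht' := off_le s'
  obtain ⟨c', hcd'⟩ : ∃ c', c' = l'.count .reversal := ⟨_, rfl⟩
  rw [← hcd'] at hf'
  obtain ⟨t', htd'⟩ : ∃ t', t' = s'.off := ⟨_, rfl⟩
  rw [← htd'] at ht'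
  have hF : ∀ i, 1 ≤ i → i ≤ k → Start.seq k .twiceTwinInversion i =
      sws (Start.ex k .twiceTwinInversion) (base 1 k i) := fun i h1 h2 => Start.seq_eq _ h1 h2
  have hF' : ∀ i, 1 ≤ i → i ≤ k → f' i = sws (l'.filterMap Rule.pair ++ s'.ex k)
      (base t' k (if c' % 2 = 0 then i else k + 1 - i)) := by
    intro i hi1 hi2
    rw [hf' i hi1 hi2, s'.seq_eq (by split_ifs <;> omega) (by split_ifs <;> omega), sws_append,
      htd']
  have fix : ∀ b, (b = 6 ∨ b = 10) → sws (Start.ex k .twiceTwinInversion) b = b := by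
    intro b hb
    apply sws_notin
    intro e he
    have h1 := (hG e he).ne6 hk
    rcases hb with rfl | rfl
    · exact h1.1
    · exact h1.2
  have fix' : ∀ b, (b = 6 ∨ b = 10) → sws (l'.filterMap Rule.pair ++ s'.ex k) b = b := by
    intro b hb
    apply sws_notin
    intro e he
    have h1 := (hG' e he).ne6 hk
    rcases hb with rfl | rfl
    · exact h1.1
    · exact h1.2
  have hpos : ∀ b, (b = 6 ∨ b = 10) →
      (if c' % 2 = 0 then b - 1 else k + 1 - (b - 1)) + t' = b := by
    intro b hb
    have h2 : base 1 k (b - 1) = b := by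
      unfold base
      rw [if_pos (by omega)]
      omega
    have h3 : f' (b - 1) = b := by
      rw [heq _ (by omega) (by omega), hF _ (by omega) (by omega), h2, fix b hb]
    rw [hF' _ (by omega) (by omega)] at h3
    have h4 := sws_inj _ (h3.trans (fix' b hb).symm)
    unfold base at h4
    split_ifs at h4 ⊢ <;> omega
  have p6 := hpos 6 (Or.inl rfl)
  have p10 := hpos 10 (Or.inr rfl)
  have htc : t' = 1 ∧ c' % 2 = 0 := by
    by_cases hc : c' % 2 = 0
    · rw [if_pos hc] at p6 p10
      omega
    · rw [if_neg hc] at p6 p10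
      omega
  obtain ⟨rfl, hc0⟩ := htc
  have hs : s' = .inversion := by
    cases s' with
    | consecutive => simp [Start.off] at htd'
    | inversion => rfl
    | twiceTwin => simp [Start.off] at htd'
    | sophie => simp [Start.off] at htd'
    | twiceTwinInversion => exact (hs' rfl).elim
  subst hs
  -- the first entries
  have h1 := heq 1 le_rfl (by omega)
  rw [hf' 1 le_rfl (by omega), if_pos hc0] at h1
  have h2 : Start.seq k .inversion 1 = 2 := by
    show (if 1 < k then 1 + 1 else 1) = 2
    rw [if_pos (by omega)]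
  have h3 : Start.seq k .twiceTwinInversion 1 = 2 * p := by
    show Equiv.swap (k / 2) (k / 2 + 2)
      (Equiv.swap 2 (2 * (k / 2)) (if 1 < k then 1 + 1 else 1)) = 2 * p
    rw [if_pos (by omega), hdiv, Equiv.swap_apply_left]
    exact Equiv.swap_apply_of_ne_of_ne (by omega) (by omega)
  rw [h2, h3, sws_notin (fun e he => ne2 hk (hL' e he))] at h1
  omega

/-- The classification of the weakly consecutive sequences. -/
theorem result :
    (∀ k, 1 ≤ k → ∀ s l f, Derives k s l f → IsWCS k f) ∧
    (∀ k, 1 ≤ k → ∀ σ : ℕ → ℕ, IsWCS k σ →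
      ∃ s l f, Derives k s l f ∧ Reduced l ∧ ∀ i, 1 ≤ i → i ≤ k → f i = σ i) ∧
    (∀ k, 12 ≤ k → ∀ (s s' : Start) (l l' : List Rule) (f f' : ℕ → ℕ),
      Derives k s l f → Derives k s' l' f' → Reduced l → Reduced l' →
      (∀ i, 1 ≤ i → i ≤ k → f i = f' i) →
      s = s' ∧ (∀ e, e ∈ l.filterMap Rule.pair ↔ e ∈ l'.filterMap Rule.pair) ∧
        (Rule.reversal ∈ l ↔ Rule.reversal ∈ l')) ∧
    (∀ p : ℕ, p.Prime → (p + 2).Prime → (2 * p + 1).Prime → 12 ≤ 2 * p →
      ∃ σ, IsWCS (2 * p) σ ∧ ¬ ∃ s l f, s ≠ Start.twiceTwinInversion ∧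
        Derives (2 * p) s l f ∧ ∀ i, 1 ≤ i → i ≤ 2 * p → f i = σ i) ∧
    (∃ σ, IsWCS 22 σ ∧ ¬ ∃ s l f, s ≠ Start.twiceTwinInversion ∧
        Derives 22 s l f ∧ ∀ i, 1 ≤ i → i ≤ 22 → f i = σ i) := by
  have key : ∀ p : ℕ, p.Prime → (p + 2).Prime → (2 * p + 1).Prime → 12 ≤ 2 * p →
      ∃ σ, IsWCS (2 * p) σ ∧ ¬ ∃ s l f, s ≠ Start.twiceTwinInversion ∧
        Derives (2 * p) s l f ∧ ∀ i, 1 ≤ i → i ≤ 2 * p → f i = σ i := by
    intro p hp hp2 hp1 hk
    exact ⟨Start.seq (2 * p) .twiceTwinInversion,
      isWCS_start (by omega) ⟨p, hp, hp2, hp1, rfl⟩, fifth_needed hp hp2 hp1 hk⟩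
  refine ⟨fun k hk s l f h => h.isWCS hk, fun k hk σ h => exists_derivation hk h,
    fun k hk s s' l l' f f' h h' hr hr' heq => unique hk h h' hr hr' heq, key, ?_⟩
  exact key 11 (by norm_num) (by norm_num) (by norm_num) (by norm_num)

end Pool.Agent.Results.MP_52d8fd_co.Classification
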